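import Pool.Agent.Helper57.TW.Goals

/-!
# Packet T74B-RK (Rankin's trick)
-/

set_option autoImplicit false

open Finset

namespace Pool.Agent.Helper48.TW

theorem tot_sqf {d : ℕ} (h : Squarefree d) :
    (Nat.totient d : ℝ) = ∏ p ∈ d.primeFactors, ((p : ℝ) - 1) := by
  have h1 := Nat.totient_eq_div_primeFactors_mul d
  rw [Nat.prod_primeFactors_of_squarefree h] at h1
  have hd : 0 < d := Nat.pos_of_ne_zero h.ne_zero
  rw [Nat.div_self hd, one_mul] at h1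
  rw [h1, Nat.cast_prod]
  refine Finset.prod_congr rfl fun p hp => ?_
  have hp1 : 1 ≤ p := (Nat.prime_of_mem_primeFactors hp).one_lt.le
  rw [Nat.cast_sub hp1, Nat.cast_one]

theorem rpow_sqf {d : ℕ} (h : Squarefree d) (α : ℝ) :
    (d : ℝ) ^ α = ∏ p ∈ d.primeFactors, (p : ℝ) ^ α := by
  have h1 : (d : ℝ) = ∏ p ∈ d.primeFactors, (p : ℝ) := by
    rw [← Nat.cast_prod, Nat.prod_primeFactors_of_squarefree h]
  conv_lhs => rw [h1]
  rw [Real.finsetProd_rpow _ _ (fun p _ => Nat.cast_nonneg p)]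

/-- the sum over a finite set of squarefree numbers is at most the Euler product -/
theorem sum_le_prod (S : Finset ℕ) (M : ℕ) (α : ℝ)
    (hS : ∀ d ∈ S, Squarefree d ∧ ∀ p : ℕ, p.Prime → p ∣ d → p ≤ M) :
    ∑ d ∈ S, (d : ℝ) ^ α / (Nat.totient d : ℝ)
      ≤ ∏ p ∈ (Icc 1 M).filter Nat.Prime, (1 + (p : ℝ) ^ α / ((p : ℝ) - 1)) := by
  rw [Finset.prod_one_add]
  have hinj : Set.InjOn Nat.primeFactors (S : Set ℕ) := by
    intro a ha b hb hab
    have h1 := Nat.prod_primeFactors_of_squarefree (hS a ha).1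
    have h2 := Nat.prod_primeFactors_of_squarefree (hS b hb).1
    have hab' : a.primeFactors = b.primeFactors := hab
    rw [← h1, ← h2, hab']
  have h1 : ∑ d ∈ S, (d : ℝ) ^ α / (Nat.totient d : ℝ)
      = ∑ T ∈ S.image Nat.primeFactors, ∏ p ∈ T, ((p : ℝ) ^ α / ((p : ℝ) - 1)) := by
    rw [Finset.sum_image hinj]
    refine Finset.sum_congr rfl fun d hd => ?_
    rw [rpow_sqf (hS d hd).1, tot_sqf (hS d hd).1, Finset.prod_div_distrib]
  rw [h1]
  refine Finset.sum_le_sum_of_subset_of_nonneg ?_ ?_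
  · intro T hT
    obtain ⟨d, hd, rfl⟩ := Finset.mem_image.1 hT
    rw [Finset.mem_powerset]
    intro p hp
    have hpp := Nat.prime_of_mem_primeFactors hp
    rw [Finset.mem_filter, Finset.mem_Icc]
    exact ⟨⟨hpp.one_lt.le, (hS d hd).2 p hpp (Nat.dvd_of_mem_primeFactors hp)⟩, hpp⟩
  · intro T hT _
    refine Finset.prod_nonneg fun p hp => ?_
    have hp' := Finset.mem_powerset.1 hT hp
    have hpp := (Finset.mem_filter.1 hp').2
    have : (1 : ℝ) < p := by exact_mod_cast hpp.one_lt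
    exact div_nonneg (Real.rpow_nonneg (Nat.cast_nonneg p) _) (by linarith)

theorem sum_inv_le (M : ℕ) (u : ℝ) (hu : 1 ≤ u) (hM : (M : ℝ) ≤ u) :
    ∑ p ∈ (Icc 1 M).filter Nat.Prime, 1 / ((p : ℝ) - 1) ≤ 1 + Real.log u := by
  have h1 : ∑ p ∈ (Icc 1 M).filter Nat.Prime, 1 / ((p : ℝ) - 1)
      ≤ ∑ k ∈ Icc 1 M, (k : ℝ)⁻¹ := by
    have hinj : Set.InjOn (fun p : ℕ => p - 1) (((Icc 1 M).filter Nat.Prime : Finset ℕ) : Set ℕ) := by
      intro a ha b hb hab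
      have h2 := (Finset.mem_filter.1 ha).2.one_lt
      have h3 := (Finset.mem_filter.1 hb).2.one_lt
      have h4 : a - 1 = b - 1 := hab
      omega
    have h2 : ∑ p ∈ (Icc 1 M).filter Nat.Prime, 1 / ((p : ℝ) - 1)
        = ∑ k ∈ ((Icc 1 M).filter Nat.Prime).image (fun p : ℕ => p - 1), (k : ℝ)⁻¹ := by
      rw [Finset.sum_image hinj]
      refine Finset.sum_congr rfl fun p hp => ?_
      have h3 := (Finset.mem_filter.1 hp).2.one_lt
      have h4 : ((p - 1 : ℕ) : ℝ) = (p : ℝ) - 1 := by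
        rw [Nat.cast_sub h3.le, Nat.cast_one]
      show 1 / ((p : ℝ) - 1) = (((p - 1 : ℕ) : ℝ))⁻¹
      rw [h4, one_div]
    rw [h2]
    refine Finset.sum_le_sum_of_subset_of_nonneg ?_ (fun k _ _ => by positivity)
    intro k hk
    obtain ⟨p, hp, rfl⟩ := Finset.mem_image.1 hk
    have h3 := (Finset.mem_filter.1 hp).2.one_lt
    have h4 := Finset.mem_Icc.1 (Finset.mem_filter.1 hp).1
    rw [Finset.mem_Icc]
    constructor
    · show 1 ≤ p - 1
      omega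
    · show p - 1 ≤ M
      omega
  have h2 : ∑ k ∈ Icc 1 M, (k : ℝ)⁻¹ = (harmonic M : ℝ) := by
    rw [harmonic_eq_sum_Icc]
    push_cast
    rfl
  have h3 : (harmonic M : ℝ) ≤ 1 + Real.log M := harmonic_le_one_add_log M
  rcases Nat.eq_zero_or_pos M with h0 | h0
  · subst h0
    simp only [Nat.cast_zero, Real.log_zero, add_zero] at h3
    have h4 : 0 ≤ Real.log u := Real.log_nonneg hu
    rw [h2] at h1
    linarith
  · have h4 : Real.log M ≤ Real.log u :=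
      Real.log_le_log (by exact_mod_cast h0) hM
    rw [h2] at h1
    linarith

theorem rk : Pool.Agent.Helper57.TW.StmtRK := by
  intro A B hA
  obtain ⟨K, hK⟩ : ∃ K : ℝ, K = 16 * A * (3 + 16 * (3 * A + B)) := ⟨_, rfl⟩
  refine ⟨⌈Real.exp (K ^ 8)⌉₊, fun x hx S hS => ?_⟩
  have hA1 : (1 : ℝ) ≤ A := by exact_mod_cast hA
  have hB0 : (0 : ℝ) ≤ B := Nat.cast_nonneg B
  have hK1 : (16 : ℝ) ≤ K := by
    rw [hK]
    nlinarith only [hA1, hB0, mul_nonneg (sub_nonneg.2 hA1) hB0]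
  obtain ⟨L, hL⟩ : ∃ L : ℝ, L = Real.log x := ⟨_, rfl⟩
  have hxe : Real.exp (K ^ 8) ≤ x := by
    calc Real.exp (K ^ 8) ≤ ⌈Real.exp (K ^ 8)⌉₊ := Nat.le_ceil _
      _ ≤ x := by exact_mod_cast hx
  have hLK : K ^ 8 ≤ L := by
    rw [hL]
    have := Real.log_le_log (Real.exp_pos _) hxe
    rwa [Real.log_exp] at this
  have hL16 : 16 ≤ L := by
    have h1 : (16 : ℝ) ^ 8 ≤ K ^ 8 := pow_le_pow_left₀ (by norm_num) hK1 8
    have h2 : (16 : ℝ) ≤ 16 ^ 8 := by norm_num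
    linarith
  have hL0 : 0 < L := by linarith
  obtain ⟨ℓ, hℓ⟩ : ∃ ℓ : ℝ, ℓ = Real.log L := ⟨_, rfl⟩
  have hℓ1 : 1 < ℓ := by
    rw [hℓ, Real.lt_log_iff_exp_lt hL0]
    have := Real.exp_one_lt_d9
    linarith
  -- the comparison
  have hℓ16 : ℓ ≤ 16 * L ^ (1 / 16 : ℝ) := by
    have h1 : Real.log L ≤ L ^ (1 / 16 : ℝ) / (1 / 16 : ℝ) :=
      Real.log_le_rpow_div hL0.le (by norm_num)
    rw [hℓ]
    linarith
  have hr1 : 1 ≤ L ^ (1 / 16 : ℝ) := Real.one_le_rpow (by linarith) (by norm_num)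
  have hr8 : (L ^ (1 / 16 : ℝ)) ^ 2 = L ^ (1 / 8 : ℝ) := by
    rw [← Real.rpow_natCast, ← Real.rpow_mul hL0.le]
    norm_num
  have hr4 : (L ^ (1 / 8 : ℝ)) ^ 2 = L ^ (1 / 4 : ℝ) := by
    rw [← Real.rpow_natCast, ← Real.rpow_mul hL0.le]
    norm_num
  have hKr : K ≤ L ^ (1 / 8 : ℝ) := by
    have h1 : (K ^ 8) ^ (1 / 8 : ℝ) ≤ L ^ (1 / 8 : ℝ) :=
      Real.rpow_le_rpow (by positivity) hLK (by norm_num)
    have h2 : (K ^ 8) ^ (1 / 8 : ℝ) = K := by
      rw [← Real.rpow_natCast K 8, ← Real.rpow_mul (by linarith)]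
      norm_num
    linarith
  obtain ⟨r, hr⟩ : ∃ r : ℝ, r = L ^ (1 / 16 : ℝ) := ⟨_, rfl⟩
  obtain ⟨s, hs⟩ : ∃ s : ℝ, s = L ^ (1 / 8 : ℝ) := ⟨_, rfl⟩
  obtain ⟨v, hv⟩ : ∃ v : ℝ, v = L ^ (1 / 4 : ℝ) := ⟨_, rfl⟩
  rw [← hr] at hℓ16 hr1 hr8
  rw [← hs] at hr8 hr4 hKr
  rw [← hv] at hr4
  have hcmp : A * ℓ * (3 + (3 * A + B) * ℓ) ≤ v := by
    have h1 : A * ℓ * (3 + (3 * A + B) * ℓ) ≤ A * (16 * r) * (3 + (3 * A + B) * (16 * r)) := by
      have h2 : A * ℓ ≤ A * (16 * r) := mul_le_mul_of_nonneg_left hℓ16 (by linarith)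
      have h3 : 3 + (3 * A + B) * ℓ ≤ 3 + (3 * A + B) * (16 * r) := by
        have := mul_le_mul_of_nonneg_left hℓ16 (show (0 : ℝ) ≤ 3 * A + B by linarith)
        linarith
      refine mul_le_mul h2 h3 ?_ (by positivity)
      have : 0 ≤ (3 * (A : ℝ) + B) * ℓ := mul_nonneg (by linarith) (by linarith)
      linarith
    have h4 : A * (16 * r) * (3 + (3 * A + B) * (16 * r)) ≤ K * r ^ 2 := by
      rw [hK]
      have h5 : 3 + (3 * (A : ℝ) + B) * (16 * r) ≤ (3 + 16 * (3 * A + B)) * r := by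
        nlinarith only [hr1]
      have h6 := mul_le_mul_of_nonneg_left h5 (show (0 : ℝ) ≤ A * (16 * r) by positivity)
      calc (A : ℝ) * (16 * r) * (3 + (3 * A + B) * (16 * r))
          ≤ A * (16 * r) * ((3 + 16 * (3 * A + B)) * r) := h6
        _ = 16 * A * (3 + 16 * (3 * A + B)) * r ^ 2 := by ring
    have h7 : K * r ^ 2 ≤ s * s := by
      rw [hr8]
      exact mul_le_mul_of_nonneg_right hKr (by linarith)
    have h8 : s * s = v := by rw [← hr4]; ring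
    linarith
  -- the sum
  obtain ⟨u, hu⟩ : ∃ u : ℝ, u = L ^ A := ⟨_, rfl⟩
  have hu1 : 1 ≤ u := by rw [hu]; exact one_le_pow₀ (by linarith)
  have hu0 : 0 < u := by linarith
  have hlu : Real.log u = A * ℓ := by rw [hu, Real.log_pow, hℓ]
  have hAℓ : 0 < A * ℓ := by positivity
  obtain ⟨α, hα⟩ : ∃ α : ℝ, α = 1 / (A * ℓ) := ⟨_, rfl⟩
  have hα0 : 0 < α := by rw [hα]; positivity
  have hαu : α * Real.log u = 1 := by
    rw [hlu, hα]
    field_simp
  have hS' : ∀ d ∈ S, Squarefree d ∧ ∀ p : ℕ, p.Prime → p ∣ d → p ≤ ⌊u⌋₊ := by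
    intro d hd
    refine ⟨(hS d hd).1, fun p hp hpd => ?_⟩
    have h1 := (hS d hd).2.2 p hp hpd
    rw [← hL, ← hu] at h1
    exact Nat.le_floor h1
  have h1 : ∑ d ∈ S, 1 / (Nat.totient d : ℝ)
      ≤ Real.exp (-(v * α)) * ∑ d ∈ S, (d : ℝ) ^ α / (Nat.totient d : ℝ) := by
    rw [Finset.mul_sum]
    refine Finset.sum_le_sum fun d hd => ?_
    have h2 := (hS d hd).2.1
    rw [← hL, ← hv] at h2
    have hd0 : (0 : ℝ) < d := lt_trans (Real.exp_pos _) h2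
    have hd0' : 0 < d := by exact_mod_cast hd0
    have hφ : (0 : ℝ) < Nat.totient d := by exact_mod_cast Nat.totient_pos.2 hd0'
    have h3 : Real.exp (v * α) ≤ (d : ℝ) ^ α := by
      rw [Real.exp_mul]
      exact Real.rpow_le_rpow (Real.exp_pos _).le h2.le hα0.le
    have h4 : 1 ≤ Real.exp (-(v * α)) * (d : ℝ) ^ α := by
      have h5 := mul_le_mul_of_nonneg_left h3 (Real.exp_pos (-(v * α))).le
      rw [← Real.exp_add] at h5
      simpa using h5
    calc 1 / (Nat.totient d : ℝ) ≤ (Real.exp (-(v * α)) * (d : ℝ) ^ α) / (Nat.totient d : ℝ) :=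
          div_le_div_of_nonneg_right h4 hφ.le
      _ = Real.exp (-(v * α)) * ((d : ℝ) ^ α / (Nat.totient d : ℝ)) := by ring
  have h2 := sum_le_prod S ⌊u⌋₊ α hS'
  have hfl : ((⌊u⌋₊ : ℕ) : ℝ) ≤ u := Nat.floor_le hu0.le
  have h3 : ∏ p ∈ (Icc 1 ⌊u⌋₊).filter Nat.Prime, (1 + (p : ℝ) ^ α / ((p : ℝ) - 1))
      ≤ Real.exp (3 * (1 + A * ℓ)) := by
    have h4 : ∏ p ∈ (Icc 1 ⌊u⌋₊).filter Nat.Prime, (1 + (p : ℝ) ^ α / ((p : ℝ) - 1))
        ≤ ∏ p ∈ (Icc 1 ⌊u⌋₊).filter Nat.Prime, Real.exp (3 * (1 / ((p : ℝ) - 1))) := by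
      refine Finset.prod_le_prod ?_ ?_
      · intro p hp
        have hpp := (Finset.mem_filter.1 hp).2
        have : (1 : ℝ) < p := by exact_mod_cast hpp.one_lt
        have h5 : 0 ≤ (p : ℝ) ^ α / ((p : ℝ) - 1) :=
          div_nonneg (Real.rpow_nonneg (Nat.cast_nonneg p) _) (by linarith)
        linarith
      · intro p hp
        have hpp := (Finset.mem_filter.1 hp).2
        have hp1 : (1 : ℝ) < p := by exact_mod_cast hpp.one_lt
        have hpM := (Finset.mem_Icc.1 (Finset.mem_filter.1 hp).1).2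
        have hpu : (p : ℝ) ≤ u := le_trans (by exact_mod_cast hpM) hfl
        have h5 : (p : ℝ) ^ α ≤ 3 := by
          have h6 : (p : ℝ) ^ α ≤ u ^ α :=
            Real.rpow_le_rpow (by linarith) hpu hα0.le
          have h7 : u ^ α = Real.exp 1 := by
            rw [Real.rpow_def_of_pos hu0, mul_comm, hαu]
          have h8 := Real.exp_one_lt_d9
          rw [h7] at h6
          linarith
        have h6 : (p : ℝ) ^ α / ((p : ℝ) - 1) ≤ 3 * (1 / ((p : ℝ) - 1)) := by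
          rw [mul_one_div]
          exact div_le_div_of_nonneg_right h5 (by linarith)
        have h7 := Real.add_one_le_exp (3 * (1 / ((p : ℝ) - 1)))
        linarith
    rw [← Real.exp_sum, ← Finset.mul_sum] at h4
    refine h4.trans (Real.exp_le_exp.2 ?_)
    have h5 := sum_inv_le ⌊u⌋₊ u hu1 hfl
    rw [hlu] at h5
    linarith
  have hvα : A * ℓ * (v * α) = v := by
    rw [hα]
    field_simp
  have h4 : 3 + (3 * A + B) * ℓ ≤ v * α := by
    have h5 : A * ℓ * (3 + (3 * A + B) * ℓ) ≤ A * ℓ * (v * α) := by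
      rw [hvα]
      exact hcmp
    exact le_of_mul_le_mul_left h5 hAℓ
  calc ∑ d ∈ S, 1 / (Nat.totient d : ℝ)
      ≤ Real.exp (-(v * α)) * ∑ d ∈ S, (d : ℝ) ^ α / (Nat.totient d : ℝ) := h1
    _ ≤ Real.exp (-(v * α)) * Real.exp (3 * (1 + A * ℓ)) :=
        mul_le_mul_of_nonneg_left (h2.trans h3) (Real.exp_pos _).le
    _ = Real.exp (-(v * α) + 3 * (1 + A * ℓ)) := (Real.exp_add _ _).symm
    _ ≤ Real.exp (-(B * ℓ)) := by
        refine Real.exp_le_exp.2 ?_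
        nlinarith only [h4]
    _ = 1 / Real.log x ^ B := by
        rw [← hL, Real.exp_neg, mul_comm, hℓ, Real.exp_mul, Real.exp_log hL0, Real.rpow_natCast,
          one_div]

end Pool.Agent.Helper48.TW
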