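import Pool.Agent.Helper70.BU.Goals

namespace Pool.Agent.Helper48.TW

open MvPolynomial Pool.Agent.Helper70.BU

theorem hasDeriv_line {ι : Type} [Fintype ι] [DecidableEq ι] (u : MvPolynomial ι ℂ) (z τ : ι → ℂ)
    (t₀ : ℂ) :
    HasDerivAt (fun t : ℂ => eval (fun j => z j + t * τ j) u)
      (∑ j, τ j * eval (fun j => z j + t₀ * τ j) (pderiv j u)) t₀ := by
  induction u using MvPolynomial.induction_on with
  | C a => simpa using hasDerivAt_const t₀ a
  | add p q hp hq =>
    have h := hp.add hq
    simp only [map_add, mul_add, Finset.sum_add_distrib]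
    exact h
  | mul_X p n hp =>
    have h1 : HasDerivAt (fun t : ℂ => z n + t * τ n) (τ n) t₀ := by
      have := ((hasDerivAt_id t₀).mul_const (τ n)).const_add (z n)
      simpa using this
    have h := hp.mul h1
    have h2 : (∑ j, τ j * eval (fun j => z j + t₀ * τ j) (pderiv j (p * X n)))
        = (∑ j, τ j * eval (fun j => z j + t₀ * τ j) (pderiv j p)) * (z n + t₀ * τ n)
          + eval (fun j => z j + t₀ * τ j) p * τ n := by
      have h3 : ∀ j, τ j * eval (fun j => z j + t₀ * τ j) (pderiv j (p * X n))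
          = (τ j * eval (fun j => z j + t₀ * τ j) (pderiv j p)) * (z n + t₀ * τ n)
            + (if j = n then eval (fun j => z j + t₀ * τ j) p * τ n else 0) := by
        intro j
        rw [pderiv_mul, pderiv_X]
        by_cases hj : j = n
        · subst hj
          simp
          ring
        · simp [hj, Ne.symm hj, mul_assoc]
      rw [Finset.sum_congr rfl (fun j _ => h3 j), Finset.sum_add_distrib, ← Finset.sum_mul,
        Finset.sum_ite_eq' Finset.univ n, if_pos (Finset.mem_univ n)]
    rw [h2]
    refine h.congr_of_eventuallyEq (Filter.Eventually.of_forall fun t => ?_)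
    simp

theorem eval_scale {ι κ : Type} [Fintype ι] [DecidableEq κ] (b : ι → κ) (m : κ → ℕ)
    (u : MvPolynomial ι ℂ) (hu : u ∈ H b m) (k : κ) (ρ : ℂ) (y : ι → ℂ) :
    eval (fun j => if b j = k then ρ * y j else y j) u = ρ ^ (m k) * eval y u := by
  classical
  rw [eval_eq', eval_eq', Finset.mul_sum]
  refine Finset.sum_congr rfl fun d hd => ?_
  have hw : Finsupp.weight (wt b) d = m :=
    (mem_weightedHomogeneousSubmodule ℂ (wt b) m u).1 hu (mem_support_iff.1 hd)
  have hk : ∑ j with b j = k, d j = m k := by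
    rw [← hw, Finsupp.weight_apply, Finsupp.sum_fintype _ _ (by intro i; simp)]
    rw [Finset.sum_apply]
    rw [Finset.sum_filter]
    refine Finset.sum_congr rfl fun j _ => ?_
    unfold wt
    by_cases hj : b j = k
    · subst hj
      simp
    · simp [hj, Ne.symm hj]
  have hp : ∏ j, (if b j = k then ρ * y j else y j) ^ d j = ρ ^ (m k) * ∏ j, y j ^ d j := by
    have h1 : ∀ j, (if b j = k then ρ * y j else y j) ^ d j
        = (if b j = k then ρ ^ d j else 1) * y j ^ d j := by
      intro j
      split_ifs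
      · rw [mul_pow]
      · rw [one_mul]
    rw [Finset.prod_congr rfl (fun j _ => h1 j), Finset.prod_mul_distrib, ← Finset.prod_filter,
      Finset.prod_pow_eq_pow_sum, hk]
  rw [hp]
  ring

theorem euler {ι κ : Type} [Fintype ι] [DecidableEq ι] [DecidableEq κ] (b : ι → κ) (m : κ → ℕ)
    (u : MvPolynomial ι ℂ) (hu : u ∈ H b m) (k : κ) (z : ι → ℂ) :
    ∑ j, (if b j = k then z j else 0) * eval z (pderiv j u) = (m k : ℂ) * eval z u := by
  have h1 := hasDeriv_line u z (fun j => if b j = k then z j else 0) 0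
  have h2 : HasDerivAt (fun t : ℂ => (1 + t) ^ (m k) * eval z u) ((m k : ℂ) * eval z u) 0 := by
    have h3 : HasDerivAt (fun t : ℂ => 1 + t) 1 0 := (hasDerivAt_id (0 : ℂ)).const_add 1
    have h4 := (h3.pow (m k)).mul_const (eval z u)
    simpa using h4
  have h5 : (fun t : ℂ => eval (fun j => z j + t * (if b j = k then z j else 0)) u)
      = fun t : ℂ => (1 + t) ^ (m k) * eval z u := by
    funext t
    rw [← eval_scale b m u hu k (1 + t) z]
    congr 1
    apply congrArg
    funext j
    split_ifs <;> ring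
  rw [h5] at h1
  have h6 := h1.unique h2
  simpa using h6

theorem ce : CE := by
  intro ι κ _ _ _ _ b m i u hu hm M hM z hz
  set k := b i with hk
  have hz1 : ∑ j with b j = k, ‖z j‖ ^ 2 = 1 := hz k
  have hM0 : 0 ≤ M := (norm_nonneg _).trans (hM z hz)
  have hmR : (1 : ℝ) ≤ (m k : ℝ) := by exact_mod_cast hm
  have hmpos : (0 : ℝ) < (m k : ℝ) := by linarith
  set c : ℂ := (starRingEnd ℂ) (z i) with hc
  set τ : ι → ℂ := fun j => (if j = i then 1 else 0) - c * (if b j = k then z j else 0) with hτ
  -- the sphere estimate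
  have hi : i ∈ Finset.univ.filter (fun j => b j = k) := by simp [hk]
  have hq : ∑ j with b j = k, ‖τ j‖ ^ 2 ≤ 1 := by
    have h1 : ∀ j ∈ Finset.univ.filter (fun j => b j = k), ‖τ j‖ ^ 2
        = (if j = i then 1 - 2 * ‖z i‖ ^ 2 else 0) + ‖z i‖ ^ 2 * ‖z j‖ ^ 2 := by
      intro j hj
      have hj' : b j = k := (Finset.mem_filter.1 hj).2
      simp only [hτ, hj', if_true]
      by_cases hji : j = i
      · subst hji
        simp only [if_true, hc]
        rw [← Complex.normSq_eq_norm_sq, ← Complex.normSq_eq_norm_sq,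
          mul_comm, Complex.mul_conj]
        rw [Complex.normSq_sub]
        simp
        ring
      · simp only [hji, if_false, zero_sub, norm_neg, norm_mul, zero_add, hc, Complex.norm_conj]
        ring
    rw [Finset.sum_congr rfl h1, Finset.sum_add_distrib, ← Finset.mul_sum, hz1,
      Finset.sum_ite_eq' _ i, if_pos hi]
    nlinarith [sq_nonneg ‖z i‖]
  have hcross : ∑ j with b j = k, z j * (starRingEnd ℂ) (τ j) = 0 := by
    have h1 : ∀ j ∈ Finset.univ.filter (fun j => b j = k), z j * (starRingEnd ℂ) (τ j)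
        = (if j = i then z j else 0) - z i * ((‖z j‖ ^ 2 : ℝ) : ℂ) := by
      intro j hj
      have hj' : b j = k := (Finset.mem_filter.1 hj).2
      simp only [hτ, hj', if_true, hc]
      rw [← Complex.normSq_eq_norm_sq, ← Complex.mul_conj]
      split_ifs <;> simp <;> ring
    rw [Finset.sum_congr rfl h1, Finset.sum_sub_distrib, Finset.sum_ite_eq' _ i, if_pos hi,
      ← Finset.mul_sum, ← Complex.ofReal_sum, hz1]
    simp
  have hnorm : ∀ t : ℂ, ∑ j with b j = k, ‖z j + t * τ j‖ ^ 2
      = 1 + ‖t‖ ^ 2 * ∑ j with b j = k, ‖τ j‖ ^ 2 := by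
    intro t
    have h1 : ∀ j ∈ Finset.univ.filter (fun j => b j = k), ‖z j + t * τ j‖ ^ 2
        = ‖z j‖ ^ 2 + ‖t‖ ^ 2 * ‖τ j‖ ^ 2
          + 2 * ((starRingEnd ℂ) t * (z j * (starRingEnd ℂ) (τ j))).re := by
      intro j _
      rw [← Complex.normSq_eq_norm_sq, Complex.normSq_add, Complex.normSq_mul,
        Complex.normSq_eq_norm_sq, Complex.normSq_eq_norm_sq, Complex.normSq_eq_norm_sq]
      rw [map_mul]
      congr 3
      ring
    rw [Finset.sum_congr rfl h1, Finset.sum_add_distrib, Finset.sum_add_distrib, hz1,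
      ← Finset.mul_sum, ← Finset.mul_sum, ← Complex.re_sum, ← Finset.mul_sum, hcross]
    simp
  have hg : ∀ t : ℂ, ‖t‖ ^ 2 ≤ 1 / (m k : ℝ) →
      ‖eval (fun j => z j + t * τ j) u‖ ≤ 2 * M := by
    intro t ht
    set N : ℝ := ∑ j with b j = k, ‖z j + t * τ j‖ ^ 2 with hN
    have hN1 : 1 ≤ N := by
      rw [hN, hnorm t]
      have : 0 ≤ ‖t‖ ^ 2 * ∑ j with b j = k, ‖τ j‖ ^ 2 := by positivity
      linarith
    have hN2 : N ≤ 1 + 1 / (m k : ℝ) := by
      rw [hN, hnorm t]
      have h0 : 0 ≤ ∑ j with b j = k, ‖τ j‖ ^ 2 := by positivity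
      have : ‖t‖ ^ 2 * ∑ j with b j = k, ‖τ j‖ ^ 2 ≤ 1 / (m k : ℝ) * 1 :=
        mul_le_mul ht hq h0 (by positivity)
      linarith
    set ρ : ℝ := Real.sqrt N with hρ
    have hρ0 : 0 < ρ := Real.sqrt_pos.2 (by linarith)
    have hρ2 : ρ ^ 2 = N := Real.sq_sqrt (by linarith)
    set y : ι → ℂ := fun j => if b j = k then (ρ : ℂ)⁻¹ * (z j + t * τ j) else z j with hy
    have hyS : y ∈ Sph b := by
      intro k'
      by_cases hkk : k' = k
      · rw [hkk]
        have h1 : ∀ j ∈ Finset.univ.filter (fun j => b j = k), ‖y j‖ ^ 2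
            = (ρ ^ 2)⁻¹ * ‖z j + t * τ j‖ ^ 2 := by
          intro j hj
          have hj' : b j = k := (Finset.mem_filter.1 hj).2
          simp only [hy, hj', if_true]
          rw [norm_mul, norm_inv, Complex.norm_real, Real.norm_eq_abs, abs_of_pos hρ0, mul_pow,
            inv_pow]
        rw [Finset.sum_congr rfl h1, ← Finset.mul_sum, hρ2]
        exact inv_mul_cancel₀ (by linarith)
      · have h1 : ∀ j ∈ Finset.univ.filter (fun j => b j = k'), ‖y j‖ ^ 2 = ‖z j‖ ^ 2 := by
          intro j hj
          have hj' : b j = k' := (Finset.mem_filter.1 hj).2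
          simp only [hy]
          rw [if_neg]
          rw [hj']
          exact hkk
        rw [Finset.sum_congr rfl h1]
        exact hz k'
    have hsc : eval (fun j => z j + t * τ j) u = (ρ : ℂ) ^ (m k) * eval y u := by
      rw [← eval_scale b m u hu k (ρ : ℂ) y]
      congr 1
      apply congrArg
      funext j
      by_cases hj : b j = k
      · simp only [hy, hj, if_true]
        rw [← mul_assoc, mul_inv_cancel₀ (Complex.ofReal_ne_zero.2 hρ0.ne'), one_mul]
      · have hji : j ≠ i := by
          intro h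
          exact hj (by rw [h])
        simp [hy, hτ, hj, hji]
    have hρm : ρ ^ (m k) ≤ 2 := by
      have h1 : (ρ ^ (m k)) ^ 2 ≤ 2 ^ 2 := by
        rw [← pow_mul, mul_comm, pow_mul, hρ2]
        calc N ^ (m k) ≤ (1 + 1 / (m k : ℝ)) ^ (m k) := pow_le_pow_left₀ (by linarith) hN2 _
          _ ≤ (Real.exp (1 / (m k : ℝ))) ^ (m k) := by
              refine pow_le_pow_left₀ (by positivity) ?_ _
              have := Real.add_one_le_exp (1 / (m k : ℝ))
              linarith
          _ = Real.exp 1 := by
              rw [← Real.exp_nat_mul]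
              congr 1
              field_simp
          _ ≤ 2 ^ 2 := by
              have := Real.exp_one_lt_d9
              norm_num at this ⊢
              linarith
      exact le_of_sq_le_sq h1 (by norm_num)
    rw [hsc, norm_mul, norm_pow, Complex.norm_real, Real.norm_eq_abs, abs_of_pos hρ0]
    exact mul_le_mul hρm (hM y hyS) (norm_nonneg _) (by norm_num)
  -- Cauchy
  have hd : ∀ t : ℂ, HasDerivAt (fun t : ℂ => eval (fun j => z j + t * τ j) u)
      (∑ j, τ j * eval (fun j => z j + t * τ j) (pderiv j u)) t := hasDeriv_line u z τ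
  have hdiff : Differentiable ℂ (fun t : ℂ => eval (fun j => z j + t * τ j) u) :=
    fun t => (hd t).differentiableAt
  have hs : 0 < 1 / Real.sqrt (m k : ℝ) := by positivity
  have hC := Complex.norm_deriv_le_of_forall_mem_sphere_norm_le (c := (0 : ℂ)) hs
    hdiff.diffContOnCl (C := 2 * M) (fun t ht => hg t (by
      rw [mem_sphere_zero_iff_norm] at ht
      rw [ht, div_pow, one_pow, Real.sq_sqrt hmpos.le]))
  rw [(hd 0).deriv] at hC
  have hfin : (∑ j, τ j * eval (fun j => z j + 0 * τ j) (pderiv j u))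
      = eval z (pderiv i u) - (m k : ℂ) * c * eval z u := by
    have h0 : (fun j => z j + 0 * τ j) = z := by
      funext j
      ring
    rw [h0]
    have h1 : ∀ j, τ j * eval z (pderiv j u) = (if j = i then eval z (pderiv j u) else 0)
        - c * ((if b j = k then z j else 0) * eval z (pderiv j u)) := by
      intro j
      simp only [hτ]
      split_ifs <;> ring
    rw [Finset.sum_congr rfl (fun j _ => h1 j), Finset.sum_sub_distrib, ← Finset.mul_sum,
      euler b m u hu k z, Finset.sum_ite_eq' _ i, if_pos (Finset.mem_univ i)]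
    ring
  rw [hfin] at hC
  refine hC.trans (le_of_eq ?_)
  field_simp

end Pool.Agent.Helper48.TW
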