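import Pool.Agent.Helper70.RC.Goals

namespace Pool.Agent.Helper48.TW

open Polynomial Pool.Agent.Helper70.RC

universe u v w

theorem herm_symm {A : Type u} [CommRing A] (n : ℕ) (f : A[X]) :
    (herm n f).transpose = herm n f := by
  ext i j
  simp only [Matrix.transpose_apply, herm, Matrix.of_apply]
  rw [add_comm]

theorem key {A : Type v} [CommRing A] {k : Type w} [Field k] [IsRealClosed k]
    (hS : HSIG.{w}) (hI : HINE.{w}) (φ : A →+* k) (n : ℕ) (f p q : A[X]) (c : A)
    (hf : f.Monic) (hn : f.natDegree = n) (hc : φ c ≠ 0) (h : p * f + q * derivative f = C c)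
    (P : Matrix (Fin n) (Fin n) A) (d : Fin n → A) (hP : φ P.det ≠ 0)
    (hd : P.transpose * herm n f * P = Matrix.diagonal d) :
    (∃ x, (f.map φ).IsRoot x) ↔ n < 2 * npos (fun i => φ (d i)) := by
  have hm : (f.map φ).Monic := hf.map φ
  have hdeg : (f.map φ).natDegree = n := by rw [hf.natDegree_map, hn]
  have hsep : (f.map φ).Separable := by
    have h1 := congrArg (Polynomial.map φ) h
    rw [Polynomial.map_add, Polynomial.map_mul, Polynomial.map_mul, Polynomial.map_C,
      ← Polynomial.derivative_map] at h1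
    refine ⟨C (φ c)⁻¹ * p.map φ, C (φ c)⁻¹ * q.map φ, ?_⟩
    calc C (φ c)⁻¹ * p.map φ * f.map φ + C (φ c)⁻¹ * q.map φ * derivative (f.map φ)
        = C (φ c)⁻¹ * (p.map φ * f.map φ + q.map φ * derivative (f.map φ)) := by ring
      _ = C (φ c)⁻¹ * C (φ c) := by rw [h1]
      _ = 1 := by rw [← C_mul, inv_mul_cancel₀ hc, C_1]
  obtain ⟨r, s, a, b, e, hrs, hroot, hker, hform⟩ := hS k n (f.map φ) hm hdeg hsep
  rw [hroot]
  have hdet : (P.map φ).det ≠ 0 := by
    have : (P.map φ).det = φ P.det := (RingHom.map_det φ P).symm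
    rw [this]
    exact hP
  have hdiag : (P.map φ).transpose * herm n (f.map φ) * (P.map φ)
      = Matrix.diagonal (fun i => φ (d i)) := by
    rw [herm_map, ← Matrix.transpose_map, ← Matrix.map_mul, ← Matrix.map_mul, hd,
      Matrix.diagonal_map (map_zero φ)]
  exact (hI k n r s (herm n (f.map φ)) (P.map φ) (fun i => φ (d i)) a b e hdet hdiag hrs hker
    hform).symm

theorem aevalAeval_eq {R : Type v} {M : Type u} [Field R] [Field M] [Algebra R M] (t y : M)
    (f : R[X][X]) :
    aevalAeval t y f = (f.map ((aeval t : R[X] →ₐ[R] M) : R[X] →+* M)).eval y := by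
  induction f using Polynomial.induction_on' with
  | add p q hp hq => rw [map_add, hp, hq, Polynomial.map_add, eval_add]
  | monomial n a =>
    rw [← C_mul_X_pow_eq_monomial]
    simp

theorem lems (h1 : SIGN.{u, v}) (h2 : HSIG.{u}) (h3 : HSIG.{v}) (h4 : HINE.{u}) (h5 : HINE.{v})
    (h6 : DIAG.{v}) : LEMS.{u, v} := by
  classical
  intro R M _ _ _ _ _ t y ht f p q c g hf hc hg hsep hy
  have : CharZero R := inferInstance
  have h20 : (2 : R[X]) ≠ 0 := two_ne_zero
  obtain ⟨P, d, hP, hd⟩ := h6 R[X] h20 f.natDegree (herm f.natDegree f) (herm_symm _ f)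
  have htR : ∀ a : R, algebraMap R M a ≠ t := by
    intro a ha
    exact ht (ha ▸ isAlgebraic_algebraMap a)
  have ht0 : ∀ h : R[X], h ≠ 0 → aeval t h ≠ 0 := by
    intro h hh h0
    exact ht ⟨h, hh, h0⟩
  obtain ⟨a, ha⟩ := h1 R M t htR
    (((insert c (insert g (insert P.det (Finset.univ.image d)))) : Finset R[X]).filter (· ≠ 0))
    (fun h hh => (Finset.mem_filter.1 hh).2)
  have hmem : ∀ h : R[X], h ≠ 0 → h ∈ (insert c (insert g (insert P.det (Finset.univ.image d)))
      : Finset R[X]) → h.eval a ≠ 0 ∧ (IsSquare (h.eval a) ↔ IsSquare (aeval t h)) :=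
    fun h h0 hh => ha h (Finset.mem_filter.2 ⟨hh, h0⟩)
  have hca := hmem c hc (by simp)
  have hga := hmem g hg (by simp)
  have hPa := hmem P.det hP (by simp)
  -- root over `M`
  have k1 := key (k := M) h2 h4 ((aeval t : R[X] →ₐ[R] M) : R[X] →+* M) f.natDegree f p q c hf rfl
    (ht0 c hc) hsep P d (ht0 _ hP) hd
  have k2 := key (k := R) h3 h5 (evalRingHom a) f.natDegree f p q c hf rfl
    hca.1 hsep P d hPa.1 hd
  have hn : npos (fun i => ((aeval t : R[X] →ₐ[R] M) : R[X] →+* M) (d i))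
      = npos (fun i => evalRingHom a (d i)) := by
    unfold npos
    congr 1
    ext i
    simp only [Finset.mem_filter, Finset.mem_univ, true_and, coe_evalRingHom, RingHom.coe_coe]
    by_cases hdi : d i = 0
    · simp [hdi]
    · have h7 := hmem (d i) hdi (by simp)
      have h8 := ht0 (d i) hdi
      constructor
      · rintro ⟨_, h9⟩
        exact ⟨h7.1, h7.2.2 h9⟩
      · rintro ⟨_, h9⟩
        exact ⟨h8, h7.2.1 h9⟩
  have hr : ∃ x, (f.map ((aeval t : R[X] →ₐ[R] M) : R[X] →+* M)).IsRoot x := by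
    refine ⟨y, ?_⟩
    rw [IsRoot.def, ← aevalAeval_eq]
    exact hy
  rw [hn] at k1
  obtain ⟨b, hb⟩ := k2.2 (k1.1 hr)
  refine ⟨a, b, hga.1, ?_⟩
  rw [← map_evalRingHom_eval]
  exact hb

end Pool.Agent.Helper48.TW
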