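import Pool.Agent.Helper70.TW.Goals

namespace Pool.Agent.Helper48.TW

open MvPolynomial Pool.Agent.Helper70.BU Pool.Agent.Helper70.TW

universe u

section mh

variable {A : Type u} [CommSemiring A] {ι κ : Type} [Fintype ι] [DecidableEq κ] {b : ι → κ}

theorem mh_mul {a c a' c' : κ → ℕ} {p q : MvPolynomial (ι ⊕ ι) A} (hp : Mh b a c p)
    (hq : Mh b a' c' q) : Mh b (a + a') (c + c') (p * q) := by
  classical
  intro d hd k
  obtain ⟨e1, h1, e2, h2, rfl⟩ := Finset.mem_add.1 (support_mul p q hd)
  simp only [Finsupp.coe_add, Pi.add_apply, Finset.sum_add_distrib]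
  exact ⟨by rw [(hp e1 h1 k).1, (hq e2 h2 k).1], by rw [(hp e1 h1 k).2, (hq e2 h2 k).2]⟩

theorem mh_one : Mh b 0 0 (1 : MvPolynomial (ι ⊕ ι) A) := by
  classical
  intro d hd k
  have : d = 0 := by
    by_contra h
    rw [mem_support_iff, coeff_one, if_neg (Ne.symm h)] at hd
    exact hd rfl
  subst this
  simp

theorem mh_pow {a c : κ → ℕ} {p : MvPolynomial (ι ⊕ ι) A} (hp : Mh b a c p) (n : ℕ) :
    Mh b (n • a) (n • c) (p ^ n) := by
  induction n with
  | zero => simpa using mh_one
  | succ n ih =>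
    rw [pow_succ, succ_nsmul, succ_nsmul]
    exact mh_mul ih hp

theorem mh_prod {J : Type} (s : Finset J) (a c : J → κ → ℕ) (p : J → MvPolynomial (ι ⊕ ι) A)
    (hp : ∀ j ∈ s, Mh b (a j) (c j) (p j)) :
    Mh b (∑ j ∈ s, a j) (∑ j ∈ s, c j) (∏ j ∈ s, p j) := by
  classical
  induction s using Finset.induction_on with
  | empty => simpa using mh_one
  | insert j s hj ih =>
    rw [Finset.sum_insert hj, Finset.sum_insert hj, Finset.prod_insert hj]
    exact mh_mul (hp j (Finset.mem_insert_self _ _))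
      (ih fun i hi => hp i (Finset.mem_insert_of_mem hi))

theorem mh_sum {J : Type*} (s : Finset J) (a c : κ → ℕ) (p : J → MvPolynomial (ι ⊕ ι) A)
    (hp : ∀ j ∈ s, Mh b a c (p j)) : Mh b a c (∑ j ∈ s, p j) := by
  classical
  intro d hd k
  obtain ⟨j, hj, h⟩ := Finset.mem_biUnion.1 (support_sum hd)
  exact hp j hj d h k

theorem mh_C_mul {a c : κ → ℕ} {p : MvPolynomial (ι ⊕ ι) A} (hp : Mh b a c p) (x : A) :
    Mh b a c (C x * p) := by
  intro d hd k
  refine hp d ?_ k
  rw [mem_support_iff, coeff_C_mul] at hd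
  rw [mem_support_iff]
  exact right_ne_zero_of_mul hd

theorem mh_X_inl (i : ι) : Mh b (Pi.single (b i) 1) 0 (X (Sum.inl i) : MvPolynomial (ι ⊕ ι) A) := by
  classical
  intro d hd k
  have : d = Finsupp.single (Sum.inl i) 1 := by
    by_contra h
    rw [mem_support_iff, coeff_X, if_neg (fun h' => h h'.symm)] at hd
    exact hd rfl
  subst this
  constructor
  · rw [Finset.sum_filter]
    rw [Finset.sum_eq_single i]
    · by_cases h : b i = k
      · subst h; simp
      · simp [h, Ne.symm h]
    · intro j _ hj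
      simp [Ne.symm hj]
    · intro h
      exact absurd (Finset.mem_univ i) h
  · simp

theorem mh_X_inr (i : ι) : Mh b 0 (Pi.single (b i) 1) (X (Sum.inr i) : MvPolynomial (ι ⊕ ι) A) := by
  classical
  intro d hd k
  have : d = Finsupp.single (Sum.inr i) 1 := by
    by_contra h
    rw [mem_support_iff, coeff_X, if_neg (fun h' => h h'.symm)] at hd
    exact hd rfl
  subst this
  constructor
  · simp
  · rw [Finset.sum_filter]
    rw [Finset.sum_eq_single i]
    · by_cases h : b i = k
      · subst h; simp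
      · simp [h, Ne.symm h]
    · intro j _ hj
      simp [Ne.symm hj]
    · intro h
      exact absurd (Finset.mem_univ i) h

end mh

section cf

variable {F K : Type u} [Field F] [Field K] [Algebra F K] {σ : Type}

/-- All coefficients are in `W ^ m`. -/
def Cfm (W : Submodule F K) (m : ℕ) (p : MvPolynomial σ (GF K)) : Prop :=
  ∀ e, ∃ x ∈ W ^ m, coeff e p = algebraMap K (GF K) x

theorem cfm_one (W : Submodule F K) : Cfm W 0 (1 : MvPolynomial σ (GF K)) := by
  classical
  intro e
  rw [coeff_one]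
  by_cases h : 0 = e
  · refine ⟨1, ?_, ?_⟩
    · rw [pow_zero]
      exact Submodule.one_le.1 le_rfl
    · rw [if_pos h, map_one]
  · exact ⟨0, Submodule.zero_mem _, by rw [if_neg h, map_zero]⟩

theorem cfm_mul {W : Submodule F K} {m m' : ℕ} {p q : MvPolynomial σ (GF K)} (hp : Cfm W m p)
    (hq : Cfm W m' q) : Cfm W (m + m') (p * q) := by
  classical
  intro e
  choose x hx hx' using hp
  choose y hy hy' using hq
  refine ⟨∑ z ∈ Finset.HasAntidiagonal.antidiagonal e, x z.1 * y z.2, ?_, ?_⟩
  · rw [pow_add]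
    exact Submodule.sum_mem _ fun z _ => Submodule.mul_mem_mul (hx _) (hy _)
  · rw [coeff_mul, map_sum]
    refine Finset.sum_congr rfl fun z _ => ?_
    rw [hx', hy', map_mul]

theorem cfm_pow {W : Submodule F K} {m : ℕ} {p : MvPolynomial σ (GF K)} (hp : Cfm W m p) (n : ℕ) :
    Cfm W (n * m) (p ^ n) := by
  induction n with
  | zero => simpa using cfm_one W
  | succ n ih =>
    rw [pow_succ, Nat.succ_mul]
    exact cfm_mul ih hp

theorem cfm_prod {J : Type} {W : Submodule F K} (s : Finset J) (m : J → ℕ)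
    (p : J → MvPolynomial σ (GF K)) (hp : ∀ j ∈ s, Cfm W (m j) (p j)) :
    Cfm W (∑ j ∈ s, m j) (∏ j ∈ s, p j) := by
  classical
  induction s using Finset.induction_on with
  | empty => simpa using cfm_one W
  | insert j s hj ih =>
    rw [Finset.sum_insert hj, Finset.prod_insert hj]
    exact cfm_mul (hp j (Finset.mem_insert_self _ _))
      (ih fun i hi => hp i (Finset.mem_insert_of_mem hi))

theorem cfm_sum {J : Type} {W : Submodule F K} (s : Finset J) (m : ℕ)
    (p : J → MvPolynomial σ (GF K)) (hp : ∀ j ∈ s, Cfm W m (p j)) :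
    Cfm W m (∑ j ∈ s, p j) := by
  classical
  intro e
  choose! x hx hx' using fun (j : J) (hj : j ∈ s) => hp j hj e
  refine ⟨∑ j ∈ s, x j, Submodule.sum_mem _ fun j hj => hx j hj, ?_⟩
  rw [coeff_sum, map_sum]
  exact Finset.sum_congr rfl fun j hj => hx' j hj

theorem cfm_lin {W : Submodule F K} {w : K} (hw : w ∈ W) (j : σ) :
    Cfm W 1 (C (algebraMap K (GF K) w) * X j : MvPolynomial σ (GF K)) := by
  classical
  intro e
  rw [coeff_C_mul, coeff_X]
  by_cases h : Finsupp.single j 1 = e
  · exact ⟨w, by rwa [pow_one], by rw [if_pos h, mul_one]⟩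
  · exact ⟨0, Submodule.zero_mem _, by rw [if_neg h, mul_zero, map_zero]⟩

end cf

theorem eval_subst {A : Type u} [CommRing A] {σ τ : Type} (L : σ → MvPolynomial τ A)
    (f : MvPolynomial σ A) (v : τ → A) :
    eval v (aeval L f) = eval (fun j => eval v (L j)) f := by
  induction f using MvPolynomial.induction_on with
  | C a => simp
  | add p q hp hq => rw [map_add, map_add, map_add, hp, hq]
  | mul_X p n hp => rw [map_mul, map_mul, map_mul, hp, aeval_X, eval_X]

theorem star_alg {A : Type u} [CommRing A] (x : A) :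
    star (algebraMap A (GF A) x) = algebraMap A (GF A) x := by
  ext <;> simp

theorem subs : SUBS.{u} := by
  classical
  intro F K _ _ _ ι κ _ _ _ _ b α β f W W' s w hf hw hW'
  set φ := algebraMap K (GF K) with hφ
  let L : ι ⊕ ι → MvPolynomial ((ι × Fin s) ⊕ (ι × Fin s)) (GF K) := Sum.elim
    (fun i => ∑ p, C (φ (w p)) * X (Sum.inl (i, p))) (fun i => ∑ p, C (φ (w p)) * X (Sum.inr (i, p)))
  have hg : aeval L f = ∑ d ∈ f.support, C (coeff d f) * ∏ j, L j ^ d j := by
    rw [aeval_def, eval₂_eq']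
    rfl
  have hsum : ∀ d ∈ f.support, ∑ j, d j = ∑ k, (α k + β k) := by
    intro d hd
    rw [Fintype.sum_sum_type, Finset.sum_add_distrib,
      ← Finset.sum_fiberwise Finset.univ b (fun i => d (Sum.inl i)),
      ← Finset.sum_fiberwise Finset.univ b (fun i => d (Sum.inr i))]
    congr 1
    · exact Finset.sum_congr rfl fun k _ => (hf d hd k).1
    · exact Finset.sum_congr rfl fun k _ => (hf d hd k).2
  let wa : ι ⊕ ι → κ → ℕ := Sum.elim (fun i => Pi.single (b i) 1) (fun _ => 0)
  let wc : ι ⊕ ι → κ → ℕ := Sum.elim (fun _ => 0) (fun i => Pi.single (b i) 1)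
  have hL : ∀ j, Mh (fun x : ι × Fin s => b x.1) (wa j) (wc j) (L j) := by
    intro j
    rcases j with i | i
    · exact mh_sum _ _ _ _ fun p _ => mh_C_mul (mh_X_inl (b := fun x : ι × Fin s => b x.1) (i, p)) _
    · exact mh_sum _ _ _ _ fun p _ => mh_C_mul (mh_X_inr (b := fun x : ι × Fin s => b x.1) (i, p)) _
  have hL' : ∀ j, Cfm W 1 (L j) := by
    intro j
    rcases j with i | i
    · exact cfm_sum _ _ _ fun p _ => cfm_lin (hw p) _
    · exact cfm_sum _ _ _ fun p _ => cfm_lin (hw p) _
  have hpw : ∀ d ∈ f.support, (∑ j, d j • wa j) = α ∧ (∑ j, d j • wc j) = β := by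
    intro d hd
    constructor
    · funext k
      rw [← (hf d hd k).1, Fintype.sum_sum_type, Finset.sum_filter]
      simp [wa, Finset.sum_apply, Pi.single_apply, eq_comm]
    · funext k
      rw [← (hf d hd k).2, Fintype.sum_sum_type, Finset.sum_filter]
      simp [wc, Finset.sum_apply, Pi.single_apply, eq_comm]
  refine ⟨aeval L f, ?_, ?_, ?_⟩
  · rw [hg]
    refine mh_sum _ _ _ _ fun d hd => mh_C_mul ?_ _
    have h1 := mh_prod (b := fun x : ι × Fin s => b x.1) Finset.univ (fun j => d j • wa j)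
      (fun j => d j • wc j) (fun j => L j ^ d j) (fun j _ => mh_pow (hL j) (d j))
    rwa [(hpw d hd).1, (hpw d hd).2] at h1
  · intro e
    rw [hg, coeff_sum]
    refine Finset.sum_induction _ (fun z : GF K => z.re ∈ W' ∧ z.im ∈ W') ?_ ?_ ?_
    · rintro x y ⟨h1, h2⟩ ⟨h3, h4⟩
      exact ⟨W'.add_mem h1 h3, W'.add_mem h2 h4⟩
    · exact ⟨W'.zero_mem, W'.zero_mem⟩
    · intro d hd
      have h1 := cfm_prod (W := W) Finset.univ (fun j => d j * 1) (fun j => L j ^ d j)
        (fun j _ => cfm_pow (hL' j) (d j))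
      simp only [mul_one] at h1
      rw [hsum d hd] at h1
      obtain ⟨x, hx, hx'⟩ := h1 e
      rw [coeff_C_mul, hx']
      have h2 := hW' d hd x hx
      simpa [QuadraticAlgebra.algebraMap_re, QuadraticAlgebra.algebraMap_im] using h2
  · intro y
    unfold evs
    rw [eval_subst]
    congr 1
    apply congrArg
    funext j
    rcases j with i | i
    · simp [L]
    · simp only [L, Sum.elim_inr, map_sum, map_mul, eval_C, eval_X, star_sum, star_mul']
      refine Finset.sum_congr rfl fun p _ => ?_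
      rw [star_alg]

end Pool.Agent.Helper48.TW
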